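import Mathlib

/-!
# Matrix symmetry and Sylow 2-subgroups
-/

namespace MatSym

open Equiv

variable {n : ℕ}

private theorem aii {α : Type*} (g : Perm α) (x : α) : g (g⁻¹ x) = x := g.apply_symm_apply x

/-- The rows of `A` can be reordered to give a symmetric matrix. -/
def MS (A : Fin n → Fin n → Bool) : Prop :=
  ∃ s : Perm (Fin n), ∀ i j, A (s i) j = A (s j) i

/-- The bipartite graph of `A`: `inl i` is the row `i`, `inr j` the column `j`. -/
def adj (A : Fin n → Fin n → Bool) : Fin n ⊕ Fin n → Fin n ⊕ Fin n → Bool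
  | Sum.inl i, Sum.inr j => A i j
  | Sum.inr j, Sum.inl i => A i j
  | Sum.inl _, Sum.inl _ => false
  | Sum.inr _, Sum.inr _ => false

/-- `g` maps rows to columns and columns to rows. -/
def Swaps (g : Perm (Fin n ⊕ Fin n)) : Prop := ∀ x, (g x).isLeft = !x.isLeft

/-- `g` maps rows to rows and columns to columns. -/
def Keeps (g : Perm (Fin n ⊕ Fin n)) : Prop := ∀ x, (g x).isLeft = x.isLeft

/-- The group of the automorphisms of the bipartite graph which keep or swap the two sides. -/
def Gam (A : Fin n → Fin n → Bool) : Subgroup (Perm (Fin n ⊕ Fin n)) where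
  carrier := {g | (∀ x y, adj A (g x) (g y) = adj A x y) ∧ (Keeps g ∨ Swaps g)}
  mul_mem' := by
    rintro g h ⟨hg, hg'⟩ ⟨hh, hh'⟩
    refine ⟨fun x y => by rw [Perm.mul_apply, Perm.mul_apply, hg, hh], ?_⟩
    rcases hg' with hg' | hg' <;> rcases hh' with hh' | hh'
    · left; intro x; rw [Perm.mul_apply, hg', hh']
    · right; intro x; rw [Perm.mul_apply, hg', hh']
    · right; intro x; rw [Perm.mul_apply, hg', hh']
    · left; intro x; rw [Perm.mul_apply, hg', hh', Bool.not_not]
  one_mem' := ⟨fun _ _ => rfl, Or.inl fun _ => rfl⟩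
  inv_mem' := by
    rintro g ⟨hg, hg'⟩
    refine ⟨fun x y => ?_, ?_⟩
    · rw [← hg, aii, aii]
    · rcases hg' with hg' | hg'
      · left; intro x
        have := hg' (g⁻¹ x)
        rw [aii] at this
        exact this.symm
      · right; intro x
        have := hg' (g⁻¹ x)
        rw [aii] at this
        rw [this, Bool.not_not]

theorem mem_Gam {A : Fin n → Fin n → Bool} {g : Perm (Fin n ⊕ Fin n)} :
    g ∈ Gam A ↔ (∀ x y, adj A (g x) (g y) = adj A x y) ∧ (Keeps g ∨ Swaps g) := Iff.rfl

/-- `A` is symmetrizable iff there is an involution which swaps the sides. -/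
theorem ms_iff_inv (A : Fin n → Fin n → Bool) :
    MS A ↔ ∃ g ∈ Gam A, g * g = 1 ∧ Swaps g := by
  constructor
  · rintro ⟨s, hs⟩
    let f : Fin n ⊕ Fin n → Fin n ⊕ Fin n := fun x =>
      match x with
      | Sum.inl i => Sum.inr (s⁻¹ i)
      | Sum.inr j => Sum.inl (s j)
    have hf : Function.Involutive f := by
      intro x
      rcases x with i | j
      · simp [f]
      · simp [f]
    have hsw : Swaps hf.toPerm := by
      intro x
      rcases x with i | j
      · rfl
      · rfl
    refine ⟨hf.toPerm, mem_Gam.2 ⟨?_, Or.inr hsw⟩, ?_, hsw⟩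
    · intro x y
      show adj A (f x) (f y) = adj A x y
      rcases x with i | j <;> rcases y with i' | j'
      · rfl
      · show A (s j') (s⁻¹ i) = A i j'
        have := hs j' (s⁻¹ i)
        rw [aii] at this
        exact this
      · show A (s j) (s⁻¹ i') = A i' j
        have := hs j (s⁻¹ i')
        rw [aii] at this
        exact this
      · rfl
    · ext x
      rw [Perm.mul_apply]
      show f (f x) = x
      exact hf x
  · rintro ⟨g, hg, hgg, hsw⟩
    obtain ⟨hadj, _⟩ := mem_Gam.1 hg
    have hcol : ∀ j, ∃ i, g (Sum.inr j) = Sum.inl i := by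
      intro j
      have := hsw (Sum.inr j)
      rcases h : g (Sum.inr j) with i | i
      · exact ⟨i, rfl⟩
      · rw [h] at this
        simp at this
    have hrow : ∀ i, ∃ j, g (Sum.inl i) = Sum.inr j := by
      intro j
      have := hsw (Sum.inl j)
      rcases h : g (Sum.inl j) with i | i
      · rw [h] at this
        simp at this
      · exact ⟨i, rfl⟩
    choose s hs using hcol
    choose r hr using hrow
    have hg2 : ∀ x, g (g x) = x := by
      intro x
      rw [← Perm.mul_apply, hgg]
      rfl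
    have h1 : ∀ j, r (s j) = j := by
      intro j
      have := hg2 (Sum.inr j)
      rw [hs, hr] at this
      exact Sum.inr_injective this
    have h2 : ∀ i, s (r i) = i := by
      intro i
      have := hg2 (Sum.inl i)
      rw [hr, hs] at this
      exact Sum.inl_injective this
    refine ⟨⟨s, r, h1, h2⟩, ?_⟩
    intro i j
    show A (s i) j = A (s j) i
    have := hadj (Sum.inr i) (Sum.inl (s j))
    rw [hs, hr, h1] at this
    exact this

theorem swaps_conj {A : Fin n → Fin n → Bool} {c g : Perm (Fin n ⊕ Fin n)} (hc : c ∈ Gam A)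
    (hg : Swaps g) : Swaps (c * g * c⁻¹) := by
  have hci := (Gam A).inv_mem hc
  intro x
  rw [Perm.mul_apply, Perm.mul_apply]
  rcases (mem_Gam.1 hc).2 with h | h
  · rw [h, hg]
    have := h (c⁻¹ x)
    rw [aii] at this
    rw [this]
  · rw [h, hg]
    have := h (c⁻¹ x)
    rw [aii] at this
    rw [this]

theorem sylow_iff (A : Fin n → Fin n → Bool) (Q : Sylow 2 (Gam A)) :
    MS A ↔ ∃ g : Gam A, g ∈ Q ∧ g * g = 1 ∧ Swaps (g : Perm (Fin n ⊕ Fin n)) := by
  rw [ms_iff_inv]
  constructor
  · rintro ⟨g, hg, hgg, hsw⟩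
    let g' : Gam A := ⟨g, hg⟩
    have hg' : g' * g' = 1 := by
      apply Subtype.ext
      exact hgg
    have hP : IsPGroup 2 (Subgroup.zpowers g') := by
      rintro ⟨x, hx⟩
      refine ⟨1, ?_⟩
      apply Subtype.ext
      obtain ⟨z, rfl⟩ := Subgroup.mem_zpowers_iff.1 hx
      show (g' ^ z) ^ (2 ^ 1) = 1
      rw [pow_one, ← zpow_natCast, ← zpow_mul, mul_comm, zpow_mul]
      have : g' ^ ((2 : ℕ) : ℤ) = 1 := by
        rw [zpow_natCast, pow_two, hg']
      rw [this, one_zpow]
    obtain ⟨P, hPle⟩ := hP.exists_le_sylow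
    obtain ⟨c, hc⟩ := MulAction.exists_smul_eq (Gam A) P Q
    have hgP : g' ∈ P := hPle (Subgroup.mem_zpowers g')
    refine ⟨c * g' * c⁻¹, ?_, ?_, ?_⟩
    · rw [← hc]
      show c * g' * c⁻¹ ∈ ((c • P : Sylow 2 (Gam A)) : Subgroup (Gam A))
      rw [Sylow.coe_subgroup_smul]
      exact Subgroup.smul_mem_pointwise_smul g' (MulAut.conj c) _ hgP
    · have : c * g' * c⁻¹ * (c * g' * c⁻¹) = c * (g' * g') * c⁻¹ := by group
      rw [this, hg']
      group
    · exact swaps_conj c.2 hsw
  · rintro ⟨g, _, hgg, hsw⟩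
    exact ⟨g, g.2, by
      have := congrArg (fun x : Gam A => (x : Perm (Fin n ⊕ Fin n))) hgg
      simpa using this, hsw⟩

/-- The pairs `(P, Q)` of a row permutation and a column permutation which keep `A`. -/
def Ker (A : Fin n → Fin n → Bool) : Subgroup (Perm (Fin n) × Perm (Fin n)) where
  carrier := {g | ∀ i j, A (g.1 i) (g.2 j) = A i j}
  mul_mem' := by
    intro g h hg hh i j
    show A ((g.1 * h.1) i) ((g.2 * h.2) j) = A i j
    rw [Perm.mul_apply, Perm.mul_apply, hg, hh]
  one_mem' := fun _ _ => rfl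
  inv_mem' := by
    intro g hg i j
    show A (g.1⁻¹ i) (g.2⁻¹ j) = A i j
    rw [← hg, aii, aii]

theorem odd_iff (A : Fin n → Fin n → Bool) (hodd : Odd (Nat.card (Ker A))) :
    MS A ↔ ∃ P Q : Perm (Fin n), ∀ i j, A (P i) (Q j) = A j i := by
  constructor
  · rintro ⟨s, hs⟩
    refine ⟨s, s⁻¹, fun i j => ?_⟩
    have := hs i (s⁻¹ j)
    rw [aii] at this
    exact this
  · rintro ⟨P, Q, h⟩
    have hK : ((P * Q, Q * P) : Perm (Fin n) × Perm (Fin n)) ∈ Ker A := by
      intro i j
      show A ((P * Q) i) ((Q * P) j) = A i j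
      rw [Perm.mul_apply, Perm.mul_apply, h, h]
    obtain ⟨l, hl⟩ := hodd
    let k : Ker A := ⟨(P * Q, Q * P), hK⟩
    have hk1 : k ^ (2 * l + 1) = 1 := by
      rw [← hl]
      exact pow_card_eq_one'
    have hk : (P * Q) ^ (2 * l + 1) = 1 := by
      have := congrArg (fun x : Ker A => (x : Perm (Fin n) × Perm (Fin n)).1) hk1
      simpa [k] using this
    have hKl : ((P * Q, Q * P) : Perm (Fin n) × Perm (Fin n)) ^ l ∈ Ker A :=
      (Ker A).pow_mem hK l
    have hl' : ∀ i j, A (((P * Q) ^ l) i) (((Q * P) ^ l) j) = A i j := by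
      intro i j
      exact hKl i j
    -- `s = (P Q) ^ l P`, `s⁻¹ = Q (P Q) ^ l = (Q P) ^ l Q`
    have hcomm : (Q * P) ^ l * Q = Q * (P * Q) ^ l := by
      clear hk1 hk hKl hl' hl
      induction l with
      | zero => simp
      | succ l ih =>
        rw [pow_succ, pow_succ]
        calc (Q * P) ^ l * (Q * P) * Q = ((Q * P) ^ l * Q) * (P * Q) := by group
          _ = Q * (P * Q) ^ l * (P * Q) := by rw [ih]
          _ = Q * ((P * Q) ^ l * (P * Q)) := by group
    have hinv : ((Q * P) ^ l * Q) * ((P * Q) ^ l * P) = 1 := by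
      have h1 : ((P * Q) ^ l * P) * ((Q * P) ^ l * Q) = 1 := by
        rw [hcomm]
        calc (P * Q) ^ l * P * (Q * (P * Q) ^ l) = (P * Q) ^ l * ((P * Q) * (P * Q) ^ l) := by
              simp only [mul_assoc]
          _ = (P * Q) ^ (2 * l + 1) := by
            rw [← pow_succ', ← pow_add]
            congr 1
            omega
          _ = 1 := hk
      exact mul_eq_one_comm.1 h1
    refine ⟨(P * Q) ^ l * P, fun i j => ?_⟩
    have hj : j = ((Q * P) ^ l) (Q (((P * Q) ^ l * P) j)) := by
      have := congrArg (fun x : Perm (Fin n) => x j) hinv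
      simpa using this.symm
    rw [Perm.mul_apply]
    conv_lhs => rw [hj]
    rw [hl', h]

end MatSym
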